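import Pool.Agent.Helper92.RECT.Goals3
import Pool.Agent.Helper56.OHS.CUB
import Pool.Agent.Helper94.OHS.CEL
import Pool.Agent.Helper65.OH.GEO

/-!
# Project RECT, packet FCK: the final check
-/

namespace Pool.Agent.Helper9.RECT

open Pool.Agent.Helper65.LinSpace Pool.Agent.Helper78.Mpc Pool.Agent.Helper28.Ram Finset
open Pool.Agent.Helper65.OH (Prm OneHead Conf Par InBox co GoodQ Fns co_lt)
open Pool.Agent.Helper28.OHS (cellN cs cn cd Rep)
open Pool.Agent.Helper92.RECT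

section

variable {D : ℕ} {A : OneHead D} {w y : List Bool} {s : Sp} {P P' : ℤ}

theorem rdy_D (h : Rdy A w y s P P') : s.m.D = D := by
  obtain ⟨eA, eN, eW, c₀, hp⟩ := h.par
  exact hp.h_D

theorem rdy_GD (h : Rdy A w y s P P') : s.G.D = D := by
  obtain ⟨eA, eN, eW, c₀, hp⟩ := h.parG
  exact hp.h_D

theorem rdy_Gκ (h : Rdy A w y s P P') : 0 < s.G.κ := by
  obtain ⟨eA, eN, eW, c₀, hp⟩ := h.parG
  exact hp.pos_κ

theorem two_pow_κ {κ : ℕ} (h : 0 < κ) : (2 : ℤ) ^ κ = 2 * 2 ^ (κ - 1) := by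
  obtain ⟨k, rfl⟩ : ∃ k, κ = k + 1 := ⟨κ - 1, by omega⟩
  rw [Nat.add_sub_cancel, pow_succ]
  ring

theorem oAB (h : Rdy A w y s P P') (k : ℕ) : ((s.oB k : ℕ) : ℤ) =
    (s.oA k : ℕ) + (if k = 0 then P else 0) + 2 ^ (s.G.κ - 1) - 2 ^ (s.m.κ - 1) := by
  unfold Sp.oA Sp.oB ifz
  by_cases hk : k = 0
  · rw [if_pos hk, if_pos hk, if_pos hk]
    push_cast
    rw [h.Ph]
    ring
  · rw [if_neg hk, if_neg hk, if_neg hk]
    push_cast
    ring

theorem shf_apply (z : ℤ) (p : Fin D → ℤ) (k : Fin D) :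
    shf z p k = p k + if k.val = 0 then z else 0 := by
  unfold shf
  by_cases hk : k.val = 0
  · rw [if_pos hk, if_pos hk]
  · rw [if_neg hk, if_neg hk, add_zero]

/-- The global coordinate of a local one. -/
theorem gc_eq (h : Rdy A w y s P P') {q : Fin D → ℤ} {u : ℕ} {k : Fin D}
    (hu : (u : ℤ) = q k + 2 ^ (s.m.κ - 1)) (hb : InBox s.G.κ (shf P q)) :
    ((s.gc u k : ℕ) : ℤ) = shf P q k + 2 ^ (s.G.κ - 1) := by
  have h1 := oAB h k.val
  have h2 := (hb k).1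
  rw [shf_apply] at h2 ⊢
  unfold Sp.gc
  have h3 : s.oA k.val ≤ u + s.oB k.val := by
    zify
    rw [h1, hu]
    linarith
  rw [Nat.cast_sub h3]
  push_cast
  rw [h1, hu]
  ring

/-- The digits of the number of the global cell. -/
theorem dig_gC (h : Rdy A w y s P P') {q : Fin D → ℤ} {p : ℕ}
    (hp : ∀ k : Fin D, ((dig (2 ^ s.m.κ) p k : ℕ) : ℤ) = q k + 2 ^ (s.m.κ - 1))
    (hb : InBox s.G.κ (shf P q)) (k : Fin D) :
    (((s.gc (dig (2 ^ s.m.κ) p k) k % 2 ^ s.G.κ : ℕ)) : ℤ) = shf P q k + 2 ^ (s.G.κ - 1) := by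
  have h1 := gc_eq h (hp k) hb
  have h2 : s.gc (dig (2 ^ s.m.κ) p k) k < 2 ^ s.G.κ := by
    zify
    rw [h1]
    exact (hb k).2
  rw [Nat.mod_eq_of_lt h2, h1]

theorem wq_lt (q : ℕ) : s.wq q < 2 ^ (s.m.S + 1) := Nat.mod_lt _ (by positivity)

theorem wq_bq (q : ℕ) : s.m.wq (s.bq q) = s.wq q := by
  unfold Prm.wq Sp.bq
  rw [Nat.add_mul_mod_self_left, Nat.mod_eq_of_lt (wq_lt q)]

theorem cq_bq (q k : ℕ) : s.m.cq (s.bq q) k = dig (2 ^ s.m.κ) (s.ce q) k := by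
  unfold Prm.cq Sp.bq
  rw [Nat.add_mul_div_left _ _ (by positivity), Nat.div_eq_of_lt (wq_lt q), zero_add]

theorem base_wq {X : LConf D} {q : ℕ} (hX : Cd s P X q) : s.wq q = num X.C.q := by
  rw [← wq_bq]
  exact hX.base.wq

theorem base_cq {X : LConf D} {q : ℕ} (hX : Cd s P X q) (k : Fin D) :
    ((dig (2 ^ s.m.κ) (s.ce q) k : ℕ) : ℤ) = X.C.h k + 2 ^ (s.m.κ - 1) := by
  rw [← cq_bq]
  exact hX.base.cq k

/-- The code of the state and the global position. -/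
theorem good_G (h : Rdy A w y s P P') {X : LConf D} {q : ℕ} (hX : Cd s P X q)
    (h1 : X.md = 1) : GoodQ s.G ⟨X.C.q, shf P X.C.h, X.C.M⟩
      (s.wq q + 2 ^ (s.m.S + 1) * s.gC (s.ce q)) := by
  have hD := rdy_D h
  have hGD := rdy_GD h
  have hb := (hX.pos h1).2.2
  have hc : ∀ k < s.G.D, s.gc (dig (2 ^ s.m.κ) (s.ce q) k) k % 2 ^ s.G.κ < 2 ^ s.G.κ :=
    fun k _ => Nat.mod_lt _ (by positivity)
  have hu : s.wq q < 2 ^ (s.G.S + 1) := by
    rw [h.S]
    exact wq_lt q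
  have hcode := Pool.Agent.Helper65.OH.GEO.code s.G (s.wq q)
    (fun k => s.gc (dig (2 ^ s.m.κ) (s.ce q) k) k % 2 ^ s.G.κ) hu hc
  have he : s.G.mk' (s.wq q) (fun k => s.gc (dig (2 ^ s.m.κ) (s.ce q) k) k % 2 ^ s.G.κ) =
      s.wq q + 2 ^ (s.m.S + 1) * s.gC (s.ce q) := by
    unfold Prm.mk' Sp.gC
    rw [h.S, hD, hGD]
  rw [he] at hcode
  refine ⟨hcode.1, ?_, ?_, ?_⟩
  · rw [hcode.2.1]
    exact base_wq hX
  · rw [h.S]
    exact hX.base.len
  · intro k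
    rw [hcode.2.2 k (by rw [hGD]; exact k.2)]
    exact dig_gC h (base_cq hX) hb k

theorem fc_ne (q v : ℕ) : s.fc q v ≠ 0 ↔ s.md q ≠ 0 ∧ s.sc q ≠ 0 ∧
    (s.f ≠ 0 → s.lV s.al ≠ 0 → v = cn s.G s.e s.f (s.nm s.al)) := by
  unfold Sp.fc ifz eq01
  by_cases h0 : s.md q = 0
  · simp [h0]
  rw [if_neg h0]
  by_cases hf : s.f = 0
  · simp [h0, hf]
  by_cases hl : s.lV s.al = 0
  · simp [h0, hl]
  · have : s.f * s.lV s.al ≠ 0 := Nat.mul_ne_zero hf hl
    rw [if_neg this]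
    by_cases hv : v = cn s.G s.e s.f (s.nm s.al)
    · simp [h0, hv]
    · simp [h0, hv, hf, hl]

theorem sc_ne (h : Rdy A w y s P P') {X : LConf D} {q : ℕ} (hX : Cd s P X q) :
    s.sc q ≠ 0 ↔ (X.md = 1 → (s.f = 0 → X.C.q.head? = some true) ∧
      (s.f ≠ 0 → GoodQ s.G ⟨X.C.q, shf P X.C.h, X.C.M⟩ (cs s.G s.f))) := by
  unfold Sp.sc
  rw [ifz_eq01, hX.md]
  by_cases h1 : X.md = 1
  · rw [if_pos h1]
    have hg := good_G h hX h1
    unfold ifz
    by_cases hf : s.f = 0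
    · rw [if_pos hf, base_wq hX]
      have h2 := accN_num X.C.q
      have h3 := accN_le (num X.C.q)
      constructor
      · intro h4 _
        exact ⟨fun _ => h2.1 (by omega), fun h5 => absurd hf h5⟩
      · intro h4
        have := h2.2 ((h4 h1).1 hf)
        omega
    · rw [if_neg hf]
      unfold eq01
      constructor
      · intro h4 _
        refine ⟨fun h5 => absurd h5 hf, fun _ => ?_⟩
        by_cases h6 : s.wq q + 2 ^ (s.m.S + 1) * s.gC (s.ce q) = cs s.G s.f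
        · rw [← h6]
          exact hg
        · rw [if_neg h6] at h4
          exact absurd rfl h4
      · intro h4
        have h5 := (h4 h1).2 hf
        have h6 := Pool.Agent.Helper56.OHS.cub.uniq s.G _ _ _ (rdy_GD h) hg h5
        rw [if_pos h6]
        exact one_ne_zero
  · rw [if_neg h1]
    simp [h1]

/-- The digits of the number of a global cell. -/
theorem dig_cd (h : Rdy A w y s P P') {p : Fin D → ℤ} (hp : InBox s.G.κ p) (k : Fin D) :
    ((dig (2 ^ s.G.κ) (cd s.G p) k : ℕ) : ℤ) = p k + 2 ^ (s.G.κ - 1) := by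
  rw [(Pool.Agent.Helper56.OHS.cub.cell s.G p (rdy_GD h) hp).2.2.2 k k.2]
  unfold co
  rw [dif_pos k.2]
  exact Int.toNat_of_nonneg (hp k).1

theorem dig_cd' (h : Rdy A w y s P P') {p : Fin D → ℤ} (hp : InBox s.G.κ p) {k : ℕ}
    (hk : k < D) : dig (2 ^ s.G.κ) (cd s.G p) k = co s.G.κ p k :=
  (Pool.Agent.Helper56.OHS.cub.cell s.G p (rdy_GD h) hp).2.2.2 k hk

/-- The local coordinate of a global one. -/
theorem lc_le (h : Rdy A w y s P P') {p : Fin D → ℤ} {g : ℕ} {k : Fin D}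
    (hg : (g : ℤ) = p k + 2 ^ (s.G.κ - 1)) :
    s.oB k ≤ g + s.oA k ↔ 0 ≤ shf (-P) p k + 2 ^ (s.m.κ - 1) := by
  have h1 := oAB h k.val
  rw [shf_apply]
  have h4 : (if k.val = 0 then -P else (0 : ℤ)) = -(if k.val = 0 then P else 0) := by
    by_cases hk : k.val = 0
    · rw [if_pos hk, if_pos hk]
    · rw [if_neg hk, if_neg hk, neg_zero]
  rw [h4]
  constructor
  · intro h3
    have h5 : ((s.oB k : ℕ) : ℤ) ≤ (g : ℤ) + (s.oA k : ℕ) := by exact_mod_cast h3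
    rw [h1, hg] at h5
    linarith
  · intro h3
    have h5 : ((s.oB k : ℕ) : ℤ) ≤ (g : ℤ) + (s.oA k : ℕ) := by
      rw [h1, hg]
      linarith
    exact_mod_cast h5

theorem lc_eq (h : Rdy A w y s P P') {p : Fin D → ℤ} {g : ℕ} {k : Fin D}
    (hg : (g : ℤ) = p k + 2 ^ (s.G.κ - 1)) (hle : s.oB k ≤ g + s.oA k) :
    ((s.lc g k : ℕ) : ℤ) = shf (-P) p k + 2 ^ (s.m.κ - 1) := by
  have h1 := oAB h k.val
  rw [shf_apply]
  have h4 : (if k.val = 0 then -P else (0 : ℤ)) = -(if k.val = 0 then P else 0) := by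
    by_cases hk : k.val = 0
    · rw [if_pos hk, if_pos hk]
    · rw [if_neg hk, if_neg hk, neg_zero]
  rw [h4]
  unfold Sp.lc
  rw [Nat.cast_sub hle]
  push_cast
  rw [h1, hg]
  ring

/-- The condition in one coordinate. -/
def lvP (s : Sp) (P P' : ℤ) (p : Fin D → ℤ) (k : Fin D) : Prop :=
  (k.val = 0 → P ≤ p k ∧ p k < P') ∧
    (k.val ≠ 0 → -2 ^ (s.m.κ - 1) ≤ p k ∧ p k < 2 ^ (s.m.κ - 1))

theorem lvP_box (h : Rdy A w y s P P') {p : Fin D → ℤ} {k : Fin D} (hk : lvP s P P' p k) :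
    0 ≤ shf (-P) p k + 2 ^ (s.m.κ - 1) ∧ shf (-P) p k + 2 ^ (s.m.κ - 1) < 2 ^ s.m.κ := by
  have hκ : 0 < s.m.κ := by have := h.κ; omega
  have e1 := two_pow_κ hκ
  have e2 : (2 : ℤ) ^ (s.m.κ - 1) = 2 * 2 ^ (s.m.κ - 2) := by
    have := two_pow_κ (κ := s.m.κ - 1) (by have := h.κ; omega)
    rwa [Nat.sub_sub] at this
  have hpos : (0 : ℤ) < 2 ^ (s.m.κ - 2) := by positivity
  have hW : (s.W : ℤ) ≤ 2 ^ (s.m.κ - 2) := by exact_mod_cast h.Wle
  have hW' := h.W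
  rw [shf_apply]
  by_cases h0 : k.val = 0
  · have h1 := hk.1 h0
    rw [if_pos h0]
    constructor
    · linarith [h1.1]
    · rw [e1]
      linarith [h1.2]
  · have h1 := hk.2 h0
    rw [if_neg h0]
    constructor
    · linarith [h1.1]
    · rw [e1]
      linarith [h1.2]

theorem lv_ne (h : Rdy A w y s P P') {p : Fin D → ℤ} {g : ℕ} {k : Fin D}
    (hg : (g : ℤ) = p k + 2 ^ (s.G.κ - 1)) :
    (s.lv g k = 1 ∨ s.lv g k = 0) ∧ (s.lv g k = 1 ↔ lvP s P P' p k) := by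
  have h01 : ∀ a b : ℕ, (le01 a b = 1 ∧ a ≤ b) ∨ (le01 a b = 0 ∧ ¬a ≤ b) := by
    intro a b
    unfold le01
    by_cases h : a ≤ b
    · exact Or.inl ⟨if_pos h, h⟩
    · exact Or.inr ⟨if_neg h, h⟩
  have h02 : ∀ a b : ℕ, (lt01 a b = 1 ∧ a < b) ∨ (lt01 a b = 0 ∧ ¬a < b) := by
    intro a b
    unfold lt01
    by_cases h : a < b
    · exact Or.inl ⟨if_pos h, h⟩
    · exact Or.inr ⟨if_neg h, h⟩
  have hκ : 0 < s.m.κ := by have := h.κ; omega
  have e1 := two_pow_κ hκ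
  have key : (s.lv g k = 1 ∨ s.lv g k = 0) ∧ (s.lv g k = 1 ↔
      (s.oB k ≤ g + s.oA k ∧ s.lc g k < 2 ^ s.m.κ ∧ (k.val = 0 →
        2 ^ (s.m.κ - 1) ≤ s.lc g k ∧ s.lc g k < 2 ^ (s.m.κ - 1) + s.W))) := by
    unfold Sp.lv
    rcases h01 (s.oB k) (g + s.oA k) with ⟨a1, a2⟩ | ⟨a1, a2⟩
    · rcases h02 (s.lc g k) (2 ^ s.m.κ) with ⟨b1, b2⟩ | ⟨b1, b2⟩
      · by_cases hk : k.val = 0
        · rcases h01 (2 ^ (s.m.κ - 1)) (s.lc g k) with ⟨c1, c2⟩ | ⟨c1, c2⟩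
          · rcases h02 (s.lc g k) (2 ^ (s.m.κ - 1) + s.W) with ⟨d1, d2⟩ | ⟨d1, d2⟩
            · rw [a1, b1, c1, d1]
              refine ⟨Or.inl ?_, ?_⟩
              · unfold ifz
                rw [if_pos hk]
              · refine ⟨fun _ => ⟨a2, b2, fun _ => ⟨c2, d2⟩⟩, fun _ => ?_⟩
                unfold ifz
                rw [if_pos hk]
            · rw [a1, b1, c1, d1]
              have : 1 * (1 * ifz k.val (1 * 0) 1) = 0 := by
                unfold ifz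
                rw [if_pos hk]
              rw [this]
              refine ⟨Or.inr rfl, ⟨fun h => absurd h (by norm_num), fun h => ?_⟩⟩
              exact absurd (h.2.2 hk).2 d2
          · rw [a1, b1, c1]
            have : 1 * (1 * ifz k.val (0 * lt01 (s.lc g k) (2 ^ (s.m.κ - 1) + s.W)) 1) = 0 := by
              unfold ifz
              rw [if_pos hk, zero_mul, mul_zero, mul_zero]
            rw [this]
            refine ⟨Or.inr rfl, ⟨fun h => absurd h (by norm_num), fun h => ?_⟩⟩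
            exact absurd (h.2.2 hk).1 c2
        · rw [a1, b1]
          have : 1 * (1 * ifz k.val (le01 (2 ^ (s.m.κ - 1)) (s.lc g k) *
              lt01 (s.lc g k) (2 ^ (s.m.κ - 1) + s.W)) 1) = 1 := by
            unfold ifz
            rw [if_neg hk]
          rw [this]
          exact ⟨Or.inl rfl, ⟨fun _ => ⟨a2, b2, fun h => absurd h hk⟩, fun _ => rfl⟩⟩
      · rw [a1, b1, zero_mul, mul_zero]
        exact ⟨Or.inr rfl, ⟨fun h => absurd h (by norm_num), fun h => absurd h.2.1 b2⟩⟩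
    · rw [a1, zero_mul]
      exact ⟨Or.inr rfl, ⟨fun h => absurd h (by norm_num), fun h => absurd h.1 a2⟩⟩
  refine ⟨key.1, key.2.trans ?_⟩
  have hsh : shf (-P) p k = p k + if k.val = 0 then -P else 0 := shf_apply _ _ _
  constructor
  · rintro ⟨g1, g2, g3⟩
    have l1 := lc_eq h hg g1
    have l2 := (lc_le h hg).1 g1
    have g2' : ((s.lc g k : ℕ) : ℤ) < 2 ^ s.m.κ := by exact_mod_cast g2
    rw [l1, hsh, e1] at g2'
    rw [hsh] at l2
    constructor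
    · intro hk
      obtain ⟨g4, g5⟩ := g3 hk
      have g4' : (2 : ℤ) ^ (s.m.κ - 1) ≤ ((s.lc g k : ℕ) : ℤ) := by exact_mod_cast g4
      have g5' : ((s.lc g k : ℕ) : ℤ) < 2 ^ (s.m.κ - 1) + (s.W : ℤ) := by exact_mod_cast g5
      rw [l1, hsh, if_pos hk] at g4' g5'
      have hW' := h.W
      exact ⟨by linarith, by linarith⟩
    · intro hk
      rw [if_neg hk] at l2 g2'
      exact ⟨by linarith, by linarith⟩
  · intro hP
    have hb := lvP_box h hP
    have g1 := (lc_le h hg).2 hb.1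
    have l1 := lc_eq h hg g1
    refine ⟨g1, ?_, ?_⟩
    · have : ((s.lc g k : ℕ) : ℤ) < 2 ^ s.m.κ := by
        rw [l1]
        exact hb.2
      exact_mod_cast this
    · intro hk
      obtain ⟨g4, g5⟩ := hP.1 hk
      have hW' := h.W
      constructor
      · have : (2 : ℤ) ^ (s.m.κ - 1) ≤ ((s.lc g k : ℕ) : ℤ) := by
          rw [l1, hsh, if_pos hk]
          linarith
        exact_mod_cast this
      · have : ((s.lc g k : ℕ) : ℤ) < 2 ^ (s.m.κ - 1) + (s.W : ℤ) := by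
          rw [l1, hsh, if_pos hk]
          linarith
        exact_mod_cast this

theorem lV_ne (h : Rdy A w y s P P') {p : Fin D → ℤ} (hp : InBox s.G.κ p) :
    s.lV (cd s.G p) ≠ 0 ↔ ∀ k : Fin D, lvP s P P' p k := by
  have hD := rdy_D h
  have hl := fun k : Fin D => lv_ne h (dig_cd h hp k)
  unfold Sp.lV eq01
  constructor
  · intro h1 k
    have h2 : ∑ k ∈ range s.m.D, (1 - s.lv (dig (2 ^ s.G.κ) (cd s.G p) k) k) = 0 := by
      by_contra h3
      rw [if_neg h3] at h1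
      exact absurd rfl h1
    have h3 := (Finset.sum_eq_zero_iff.1 h2) k.val (mem_range.2 (by rw [hD]; exact k.2))
    rcases (hl k).1 with h4 | h4
    · exact (hl k).2.1 h4
    · rw [h4] at h3
      exact absurd h3 (by norm_num)
  · intro h1
    have h2 : ∑ k ∈ range s.m.D, (1 - s.lv (dig (2 ^ s.G.κ) (cd s.G p) k) k) = 0 := by
      refine Finset.sum_eq_zero fun k hk => ?_
      have hk' : k < D := by
        rw [← hD]
        exact mem_range.1 hk
      have h3 := (hl ⟨k, hk'⟩).2.2 (h1 ⟨k, hk'⟩)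
      have h4 : s.lv (dig (2 ^ s.G.κ) (cd s.G p) k) k = 1 := h3
      rw [h4, Nat.sub_self]
    rw [if_pos h2]
    exact one_ne_zero

theorem all_lvP (h : Rdy A w y s P P') (p : Fin D → ℤ) : (∀ k : Fin D, lvP s P P' p k) ↔
    P ≤ fst p ∧ fst p < P' ∧
      ∀ k : Fin D, k.val ≠ 0 → -2 ^ (s.m.κ - 1) ≤ p k ∧ p k < 2 ^ (s.m.κ - 1) := by
  have hf : fst p = p ⟨0, h.pos⟩ := by
    unfold fst
    rw [dif_pos h.pos]
  rw [hf]
  constructor
  · intro h1
    have h2 := (h1 ⟨0, h.pos⟩).1 rfl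
    exact ⟨h2.1, h2.2, fun k hk => (h1 k).2 hk⟩
  · rintro ⟨h1, h2, h3⟩ k
    refine ⟨fun hk => ?_, h3 k⟩
    have : k = ⟨0, h.pos⟩ := Fin.ext hk
    rw [this]
    exact ⟨h1, h2⟩

end

theorem fck : FCK_stmt where
  snd := by
    intro D A w y s P P' h X q v hX hfc
    obtain ⟨_, h2, h3⟩ := (fc_ne q v).1 hfc
    exact ⟨(sc_ne h hX).1 h2, h3⟩
  cmp := by
    intro D A w y s P P' h X q v hX h1 h2
    refine (fc_ne q v).2 ⟨?_, (sc_ne h hX).2 h1, h2⟩
    rw [hX.md]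
    exact hX.ne
  lv := by
    intro D A w y s P P' h p hp
    have hD := rdy_D h
    refine ⟨(lV_ne h hp).trans (all_lvP h p), ?_, ?_⟩
    · intro h1
      have h2 := (lV_ne h hp).1 h1
      have hbox : InBox s.m.κ (shf (-P) p) := fun k => lvP_box h (h2 k)
      refine ⟨?_, hbox⟩
      unfold Sp.lC cd
      rw [hD]
      refine tab_congr fun k hk => ?_
      have e1 : ((dig (2 ^ s.G.κ) (tab (2 ^ s.G.κ) D (co s.G.κ p)) k : ℕ) : ℤ) =
          p ⟨k, hk⟩ + 2 ^ (s.G.κ - 1) := dig_cd h hp ⟨k, hk⟩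
      have e2 := (lc_le (k := ⟨k, hk⟩) h e1).2 (hbox ⟨k, hk⟩).1
      have e3 := lc_eq (k := ⟨k, hk⟩) h e1 e2
      have e4 : ((co s.m.κ (shf (-P) p) k : ℕ) : ℤ) = shf (-P) p ⟨k, hk⟩ + 2 ^ (s.m.κ - 1) := by
        unfold co
        rw [dif_pos hk]
        exact Int.toNat_of_nonneg (hbox ⟨k, hk⟩).1
      have e5 : s.lc (dig (2 ^ s.G.κ) (tab (2 ^ s.G.κ) D (co s.G.κ p)) k) k =
          co s.m.κ (shf (-P) p) k := by
        have e6 : ((s.lc (dig (2 ^ s.G.κ) (tab (2 ^ s.G.κ) D (co s.G.κ p)) k) k : ℕ) : ℤ) =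
            ((co s.m.κ (shf (-P) p) k : ℕ) : ℤ) := by
          rw [e4]
          exact e3
        exact_mod_cast e6
      rw [e5]
      exact Nat.mod_eq_of_lt (co_lt hbox k)
    · unfold Sp.nm
      refine Pool.Agent.Helper94.OHS.cel.congr _ _ _ _ fun k hk => ?_
      rw [hD] at hk
      exact dig_cd' h hp hk

end Pool.Agent.Helper9.RECT
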