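import Pool.Agent.Helper92.RECT.Goals2

/-!
# Project RECT, packet GLUE: soundness of the cuts
-/

namespace Pool.Agent.Helper9.RECT

open Pool.Agent.Helper65.LinSpace Pool.Agent.Helper78.Mpc Pool.Agent.Helper28.Ram Finset
open Pool.Agent.Helper65.OH
open Pool.Agent.Helper92.RECT

variable {D : ℕ}

theorem fst_shf (hD : 0 < D) (z : ℤ) (p : Fin D → ℤ) : fst (shf z p) = fst p + z := by
  unfold fst shf
  rw [dif_pos hD, dif_pos hD]
  simp

theorem shf_shf (z : ℤ) (p : Fin D → ℤ) : shf (-z) (shf z p) = p := by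
  funext k
  unfold shf
  by_cases h : k.val = 0
  · simp [h]
  · simp [h]

theorem shf_shf' (z : ℤ) (p : Fin D → ℤ) : shf z (shf (-z) p) = p := by
  funext k
  unfold shf
  by_cases h : k.val = 0
  · simp [h]
  · simp [h]

theorem shf_inj {z : ℤ} {p p' : Fin D → ℤ} (h : shf z p = shf z p') : p = p' := by
  rw [← shf_shf z p, h, shf_shf]

theorem mv_le (q : List Bool) (k : ℕ) : |mv q k| ≤ 1 := by
  unfold mv
  split_ifs <;> simp

/-- The head moves by at most one cell. -/
theorem fst_step (hD : 0 < D) (A : OneHead D) (w y : List Bool) (C : Conf D) :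
    fst (A.step w y C).h ≤ fst C.h + 1 ∧ fst C.h ≤ fst (A.step w y C).h + 1 := by
  unfold fst
  rw [dif_pos hD, dif_pos hD]
  show C.h ⟨0, hD⟩ + mv _ _ ≤ _ ∧ _ ≤ C.h ⟨0, hD⟩ + mv _ _ + 1
  have h := abs_le.1 (mv_le (A.next (A.inp w y C.q (C.M C.h))) ((⟨0, hD⟩ : Fin D) : ℕ))
  constructor
  · linarith [h.2]
  · linarith [h.1]

/-! ### The local process -/

theorem lstep_md0 (A : OneHead D) (w y : List Bool) (σ : Slb D) (X : LConf D) (h : X.md = 0) :
    (lstep A w y σ X).md = 0 := by
  unfold lstep
  rw [if_neg (by omega), if_neg (by omega), if_neg (by omega)]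
  rfl

theorem lstep_fin (A : OneHead D) (w y : List Bool) (σ : Slb D) (X : LConf D)
    (h : LFin σ X) : (lstep A w y σ X).md = 0 := by
  obtain ⟨_, h1, h2, h3⟩ := h
  unfold lstep
  by_cases m1 : X.md = 1
  · rw [if_pos m1, if_pos (Or.inl h1)]
    rfl
  rw [if_neg m1]
  by_cases m2 : X.md = 2
  · rw [if_pos m2, h2]
    rfl
  rw [if_neg m2]
  by_cases m3 : X.md = 3
  · rw [if_pos m3, h3]
    rfl
  rw [if_neg m3]
  rfl

theorem inner_t (σ : Slb D) (X : LConf D) (C' : Conf D) : X.t ≤ (Pool.Agent.Helper92.RECT.inner σ X C').t := by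
  unfold Pool.Agent.Helper92.RECT.inner
  split_ifs
  · exact Nat.le_succ _
  · exact le_rfl
  · exact Nat.le_succ _
  · exact le_rfl
  · exact Nat.le_succ _

theorem lstep_t (A : OneHead D) (w y : List Bool) (σ : Slb D) (X : LConf D) :
    X.t ≤ (lstep A w y σ X).t := by
  unfold lstep
  by_cases m1 : X.md = 1
  · rw [if_pos m1]
    split_ifs
    · exact le_rfl
    · exact inner_t _ _ _
  rw [if_neg m1]
  by_cases m2 : X.md = 2
  · rw [if_pos m2]
    cases σ.L X.i with
    | none => exact le_rfl
    | some ρ => exact le_rfl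
  rw [if_neg m2]
  by_cases m3 : X.md = 3
  · rw [if_pos m3]
    cases σ.R X.j with
    | none => exact le_rfl
    | some ρ => exact le_rfl
  rw [if_neg m3]
  exact le_rfl

theorem lstep_L (A : OneHead D) (w y : List Bool) (σ : Slb D) (X : LConf D)
    {ρ : List Bool × (Fin D → ℤ)} (h : X.md = 2) (hL : σ.L X.i = some ρ) :
    lstep A w y σ X = ⟨1, X.i + 1, X.j, X.t, ⟨ρ.1, set0 ρ.2 0, X.C.M⟩⟩ := by
  unfold lstep
  rw [if_neg (by omega), if_pos h, hL]

theorem lstep_R (A : OneHead D) (w y : List Bool) (σ : Slb D) (X : LConf D)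
    {ρ : List Bool × (Fin D → ℤ)} (h : X.md = 3) (hR : σ.R X.j = some ρ) :
    lstep A w y σ X = ⟨1, X.i, X.j + 1, X.t, ⟨ρ.1, set0 ρ.2 (σ.W - 1), X.C.M⟩⟩ := by
  unfold lstep
  rw [if_neg (by omega), if_neg (by omega), if_pos h, hR]

theorem lstep_L0 (A : OneHead D) (w y : List Bool) (σ : Slb D) (X : LConf D)
    (h : X.md = 2) (hL : σ.L X.i = none) : (lstep A w y σ X).md = 0 := by
  unfold lstep
  rw [if_neg (by omega), if_pos h, hL]
  rfl

theorem lstep_R0 (A : OneHead D) (w y : List Bool) (σ : Slb D) (X : LConf D)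
    (h : X.md = 3) (hR : σ.R X.j = none) : (lstep A w y σ X).md = 0 := by
  unfold lstep
  rw [if_neg (by omega), if_neg (by omega), if_pos h, hR]
  rfl

/-- A successful step in the mode `1`. -/
theorem lstep_in (A : OneHead D) (w y : List Bool) (σ : Slb D) (X : LConf D) (h : X.md = 1)
    (h0 : (lstep A w y σ X).md ≠ 0) : X.t ≠ σ.n ∧
    ((fst (A.step w y X.C).h < 0 ∧
        σ.L X.i = some ((A.step w y X.C).q, set0 (A.step w y X.C).h 0) ∧
        lstep A w y σ X =
          ⟨2, X.i + 1, X.j, X.t + 1, ⟨[], fun _ => 0, (A.step w y X.C).M⟩⟩) ∨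
      (σ.W ≤ fst (A.step w y X.C).h ∧
        σ.R X.j = some ((A.step w y X.C).q, set0 (A.step w y X.C).h 0) ∧
        lstep A w y σ X =
          ⟨3, X.i, X.j + 1, X.t + 1, ⟨[], fun _ => 0, (A.step w y X.C).M⟩⟩) ∨
      (0 ≤ fst (A.step w y X.C).h ∧ fst (A.step w y X.C).h < σ.W ∧
        lstep A w y σ X = ⟨1, X.i, X.j, X.t + 1, A.step w y X.C⟩)) := by
  unfold lstep at h0 ⊢
  rw [if_pos h] at h0 ⊢
  by_cases h1 : X.t = σ.n ∨ X.C.q.head? = some true
  · rw [if_pos h1] at h0
    exact absurd rfl h0
  rw [if_neg h1] at h0 ⊢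
  refine ⟨fun h2 => h1 (Or.inl h2), ?_⟩
  unfold Pool.Agent.Helper92.RECT.inner at h0 ⊢
  by_cases h2 : fst (A.step w y X.C).h < 0
  · rw [if_pos h2] at h0 ⊢
    by_cases h3 : σ.L X.i = some ((A.step w y X.C).q, set0 (A.step w y X.C).h 0)
    · rw [if_pos h3]
      exact Or.inl ⟨h2, h3, rfl⟩
    · rw [if_neg h3] at h0
      exact absurd rfl h0
  rw [if_neg h2] at h0 ⊢
  by_cases h4 : σ.W ≤ fst (A.step w y X.C).h
  · rw [if_pos h4] at h0 ⊢
    by_cases h3 : σ.R X.j = some ((A.step w y X.C).q, set0 (A.step w y X.C).h 0)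
    · rw [if_pos h3]
      exact Or.inr (Or.inl ⟨h4, h3, rfl⟩)
    · rw [if_neg h3] at h0
      exact absurd rfl h0
  rw [if_neg h4]
  exact Or.inr (Or.inr ⟨not_lt.1 h2, not_le.1 h4, rfl⟩)

section Lc

variable (A : OneHead D) (w y : List Bool) (σ : Slb D) (X₀ : LConf D)

theorem lconf_md {e : ℕ} (h : (lconf A w y σ X₀ e).md ≠ 0) :
    ∀ j ≤ e, (lconf A w y σ X₀ j).md ≠ 0 := by
  induction e with
  | zero =>
    intro j hj
    rw [Nat.le_zero.1 hj]
    exact h
  | succ e ih =>
    intro j hj
    rcases Nat.lt_or_ge e j with h1 | h1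
    · have : j = e + 1 := by omega
      rw [this]
      exact h
    · refine ih (fun h2 => h ?_) j h1
      exact lstep_md0 A w y σ _ h2

theorem lconf_fin {e : ℕ} (h : (lconf A w y σ X₀ e).md ≠ 0) {j : ℕ} (hj : j < e) :
    ¬LFin σ (lconf A w y σ X₀ j) := by
  intro h1
  exact lconf_md A w y σ X₀ h (j + 1) hj (lstep_fin A w y σ _ h1)

theorem lconf_t {e j : ℕ} (h : j ≤ e) :
    (lconf A w y σ X₀ j).t ≤ (lconf A w y σ X₀ e).t := by
  induction e with
  | zero => rw [Nat.le_zero.1 h]
  | succ e ih =>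
    rcases Nat.lt_or_ge e j with h1 | h1
    · have : j = e + 1 := by omega
      rw [this]
    · exact (ih h1).trans (lstep_t A w y σ _)

end Lc

/-! ### The invariant -/

/-- The invariant: the configurations `X i` of the local processes fit to the configuration `C`. -/
structure GInv (K : ℕ) (P : ℕ → ℤ) (X : ℕ → LConf D) (τ : ℕ) (C : Conf D) : Prop where
  sum : ∑ i ∈ range K, (X i).t = τ
  inn : P 0 ≤ fst C.h ∧ fst C.h < P K
  md1 : ∀ i < K, P i ≤ fst C.h → fst C.h < P (i + 1) → (X i).md = 1 ∧ (X i).C.q = C.q ∧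
    (X i).C.h = shf (-P i) C.h
  md2 : ∀ i < K, fst C.h < P i → (X i).md = 2
  md3 : ∀ i < K, P (i + 1) ≤ fst C.h → (X i).md = 3
  ct : ∀ i < K, ∀ p, P i ≤ fst p → fst p < P (i + 1) → (X i).C.M (shf (-P i) p) = C.M p
  link : ∀ i, i + 1 < K → (X i).j = (X (i + 1)).i

theorem mono_P {K : ℕ} {P : ℕ → ℤ} (hP : ∀ i < K, P i < P (i + 1)) :
    ∀ i j, i ≤ j → j ≤ K → P i ≤ P j := by
  intro i j hij hj
  induction j with
  | zero => rw [Nat.le_zero.1 hij]
  | succ j ih =>
    rcases Nat.lt_or_ge j i with h1 | h1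
    · have : i = j + 1 := by omega
      rw [this]
    · exact (ih h1 (by omega)).trans (hP j (by omega)).le

theorem exists_slab {K : ℕ} {P : ℕ → ℤ} (hP : ∀ i < K, P i < P (i + 1)) {z : ℤ}
    (h0 : P 0 ≤ z) (h1 : z < P K) : ∃ m < K, P m ≤ z ∧ z < P (m + 1) := by
  induction K with
  | zero => omega
  | succ K ih =>
    by_cases h : z < P K
    · obtain ⟨m, hm, h2⟩ := ih (fun i hi => hP i (by omega)) h
      exact ⟨m, by omega, h2⟩
    · exact ⟨K, by omega, not_lt.1 h, h1⟩

/-- The step of the machine in the local coordinates of the slab with the head. -/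
theorem local_step {K : ℕ} {P : ℕ → ℤ} {X : ℕ → LConf D} {τ : ℕ}
    {C : Conf D} (A : OneHead D) (w y : List Bool) (hI : GInv K P X τ C) {m : ℕ} (hm : m < K)
    (h1 : P m ≤ fst C.h) (h2 : fst C.h < P (m + 1)) :
    (A.step w y (X m).C).q = (A.step w y C).q ∧
    (A.step w y (X m).C).h = shf (-P m) (A.step w y C).h ∧
    ∀ p, P m ≤ fst p → fst p < P (m + 1) →
      (A.step w y (X m).C).M (shf (-P m) p) = (A.step w y C).M p := by
  obtain ⟨_, hq, hh⟩ := hI.md1 m hm h1 h2
  have hM : (X m).C.M (X m).C.h = C.M C.h := by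
    rw [hh]
    exact hI.ct m hm C.h h1 h2
  have hin : A.inp w y (X m).C.q ((X m).C.M (X m).C.h) = A.inp w y C.q (C.M C.h) := by
    rw [hM, hq]
  refine ⟨?_, ?_, ?_⟩
  · show A.next _ = A.next _
    rw [hin]
  · funext k
    show (X m).C.h k + mv (A.next (A.inp w y (X m).C.q ((X m).C.M (X m).C.h))) k = _
    rw [hin, hh]
    unfold shf
    by_cases hk : k.val = 0
    · rw [if_pos hk, if_pos hk]
      show _ = C.h k + mv _ _ + _
      ring
    · rw [if_neg hk, if_neg hk]
      rfl
  · intro p hp1 hp2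
    show Function.update (X m).C.M (X m).C.h
      (A.write (A.inp w y (X m).C.q ((X m).C.M (X m).C.h))) (shf (-P m) p) =
      Function.update C.M C.h (A.write (A.inp w y C.q (C.M C.h))) p
    rw [hin, hh]
    by_cases hpc : p = C.h
    · rw [hpc, Function.update_self, Function.update_self]
    · rw [Function.update_of_ne hpc, Function.update_of_ne (fun h => hpc (shf_inj h))]
      exact hI.ct m hm p hp1 hp2

theorem step_M_ne (A : OneHead D) (w y : List Bool) (C : Conf D) {p : Fin D → ℤ}
    (h : p ≠ C.h) : (A.step w y C).M p = C.M p := by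
  show Function.update C.M C.h _ p = C.M p
  rw [Function.update_of_ne h]

/-- The step stays in the slab. -/
theorem stepC {K : ℕ} {P : ℕ → ℤ} (hP : ∀ i < K, P i < P (i + 1)) {X : ℕ → LConf D}
    {τ : ℕ} {C : Conf D} (A : OneHead D) (w y : List Bool) (hI : GInv K P X τ C) {m : ℕ}
    (hm : m < K) (h1 : P m ≤ fst C.h) (h2 : fst C.h < P (m + 1))
    (h3 : P m ≤ fst (A.step w y C).h) (h4 : fst (A.step w y C).h < P (m + 1)) :
    GInv K P (Function.update X m ⟨1, (X m).i, (X m).j, (X m).t + 1, A.step w y (X m).C⟩)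
      (τ + 1) (A.step w y C) := by
  obtain ⟨eq, eh, eM⟩ := local_step A w y hI hm h1 h2
  have hne : ∀ i, i ≠ m → Function.update X m
      ⟨1, (X m).i, (X m).j, (X m).t + 1, A.step w y (X m).C⟩ i = X i :=
    fun i hi => Function.update_of_ne hi _ _
  have hself : Function.update X m
      ⟨1, (X m).i, (X m).j, (X m).t + 1, A.step w y (X m).C⟩ m =
      ⟨1, (X m).i, (X m).j, (X m).t + 1, A.step w y (X m).C⟩ := Function.update_self _ _ _
  set X' := Function.update X m ⟨1, (X m).i, (X m).j, (X m).t + 1, A.step w y (X m).C⟩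
  have hi : ∀ i, (X' i).i = (X i).i := by
    intro i
    by_cases h : i = m
    · rw [h, hself]
    · rw [hne i h]
  have hj : ∀ i, (X' i).j = (X i).j := by
    intro i
    by_cases h : i = m
    · rw [h, hself]
    · rw [hne i h]
  have ht : ∀ i, (X' i).t = (X i).t + if i = m then 1 else 0 := by
    intro i
    by_cases h : i = m
    · rw [h, hself, if_pos rfl]
    · rw [hne i h, if_neg h, add_zero]
  have hPm := mono_P hP
  refine ⟨?_, ?_, ?_, ?_, ?_, ?_, ?_⟩
  · rw [sum_congr rfl fun i _ => ht i, sum_add_distrib, hI.sum, sum_ite_eq' (range K) m,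
      if_pos (mem_range.2 hm)]
  · exact ⟨(hPm 0 m (by omega) hm.le).trans h3, h4.trans_le (hPm (m + 1) K hm le_rfl)⟩
  · intro i hi h5 h6
    have him : i = m := by
      by_contra hne
      rcases lt_or_gt_of_ne hne with h | h
      · have := hPm (i + 1) m h hm.le
        omega
      · have := hPm (m + 1) i h hi.le
        omega
    rw [him, hself]
    exact ⟨rfl, eq, eh⟩
  · intro i hi h5
    have him : m < i := by
      by_contra h
      have := hPm i m (not_lt.1 h) hm.le
      omega
    rw [hne i him.ne']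
    refine hI.md2 i hi ?_
    have := hPm (m + 1) i him hi.le
    omega
  · intro i hi h5
    have him : i < m := by
      by_contra h
      have := hPm (m + 1) (i + 1) (by omega) hi
      omega
    rw [hne i him.ne]
    refine hI.md3 i hi ?_
    have := hPm (i + 1) m him hm.le
    omega
  · intro i hi p hp1 hp2
    by_cases him : i = m
    · subst him
      rw [hself]
      exact eM p hp1 hp2
    · rw [hne i him, hI.ct i hi p hp1 hp2, step_M_ne]
      rintro rfl
      rcases lt_or_gt_of_ne him with h | h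
      · have := hPm (i + 1) m h hm.le
        omega
      · have := hPm (m + 1) i h hi.le
        omega
  · intro i hik
    rw [hi, hj]
    exact hI.link i hik

/-- The head goes to the slab on the left. -/
theorem stepA (hD : 0 < D) {K : ℕ} {P : ℕ → ℤ} (hP : ∀ i < K, P i < P (i + 1)) {X : ℕ → LConf D}
    {τ : ℕ} {C : Conf D} (A : OneHead D) (w y : List Bool) (hI : GInv K P X τ C) {m : ℕ}
    (hm : m + 1 < K) (h1 : P (m + 1) ≤ fst C.h) (h2 : fst C.h < P (m + 1 + 1))
    (h3 : fst (A.step w y C).h < P (m + 1)) :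
    GInv K P (Function.update (Function.update X (m + 1)
      ⟨2, (X (m + 1)).i + 1, (X (m + 1)).j, (X (m + 1)).t + 1,
        ⟨[], fun _ => 0, (A.step w y (X (m + 1)).C).M⟩⟩) m
      ⟨1, (X m).i, (X m).j + 1, (X m).t, ⟨(A.step w y (X (m + 1)).C).q,
        set0 (set0 (A.step w y (X (m + 1)).C).h 0) (P (m + 1) - P m - 1), (X m).C.M⟩⟩)
      (τ + 1) (A.step w y C) := by
  obtain ⟨eq, eh, eM⟩ := local_step A w y hI hm h1 h2
  have hmm : m < K := by omega
  have h4 : fst (A.step w y C).h = P (m + 1) - 1 := by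
    have := (fst_step hD A w y C).2
    omega
  set Y := A.step w y (X (m + 1)).C with hY
  have hself : Function.update (Function.update X (m + 1)
      ⟨2, (X (m + 1)).i + 1, (X (m + 1)).j, (X (m + 1)).t + 1, ⟨[], fun _ => 0, Y.M⟩⟩) m
      ⟨1, (X m).i, (X m).j + 1, (X m).t, ⟨Y.q, set0 (set0 Y.h 0) (P (m + 1) - P m - 1),
        (X m).C.M⟩⟩ m = ⟨1, (X m).i, (X m).j + 1, (X m).t, ⟨Y.q,
          set0 (set0 Y.h 0) (P (m + 1) - P m - 1), (X m).C.M⟩⟩ := Function.update_self _ _ _
  have hself2 : Function.update (Function.update X (m + 1)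
      ⟨2, (X (m + 1)).i + 1, (X (m + 1)).j, (X (m + 1)).t + 1, ⟨[], fun _ => 0, Y.M⟩⟩) m
      ⟨1, (X m).i, (X m).j + 1, (X m).t, ⟨Y.q, set0 (set0 Y.h 0) (P (m + 1) - P m - 1),
        (X m).C.M⟩⟩ (m + 1) = ⟨2, (X (m + 1)).i + 1, (X (m + 1)).j, (X (m + 1)).t + 1,
          ⟨[], fun _ => 0, Y.M⟩⟩ := by
    rw [Function.update_of_ne (by omega), Function.update_self]
  have hne : ∀ i, i ≠ m → i ≠ m + 1 → Function.update (Function.update X (m + 1)
      ⟨2, (X (m + 1)).i + 1, (X (m + 1)).j, (X (m + 1)).t + 1, ⟨[], fun _ => 0, Y.M⟩⟩) m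
      ⟨1, (X m).i, (X m).j + 1, (X m).t, ⟨Y.q, set0 (set0 Y.h 0) (P (m + 1) - P m - 1),
        (X m).C.M⟩⟩ i = X i := by
    intro i h5 h6
    rw [Function.update_of_ne h5, Function.update_of_ne h6]
  set X' := Function.update (Function.update X (m + 1)
      ⟨2, (X (m + 1)).i + 1, (X (m + 1)).j, (X (m + 1)).t + 1, ⟨[], fun _ => 0, Y.M⟩⟩) m
      ⟨1, (X m).i, (X m).j + 1, (X m).t, ⟨Y.q, set0 (set0 Y.h 0) (P (m + 1) - P m - 1),
        (X m).C.M⟩⟩
  have hi : ∀ i, (X' i).i = (X i).i + if i = m + 1 then 1 else 0 := by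
    intro i
    by_cases h : i = m + 1
    · rw [h, hself2, if_pos rfl]
    · rw [if_neg h]
      by_cases h' : i = m
      · rw [h', hself, add_zero]
      · rw [hne i h' h, add_zero]
  have hj : ∀ i, (X' i).j = (X i).j + if i = m then 1 else 0 := by
    intro i
    by_cases h : i = m
    · rw [h, hself, if_pos rfl]
    · rw [if_neg h]
      by_cases h' : i = m + 1
      · rw [h', hself2, add_zero]
      · rw [hne i h h', add_zero]
  have ht : ∀ i, (X' i).t = (X i).t + if i = m + 1 then 1 else 0 := by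
    intro i
    by_cases h : i = m + 1
    · rw [h, hself2, if_pos rfl]
    · rw [if_neg h]
      by_cases h' : i = m
      · rw [h', hself, add_zero]
      · rw [hne i h' h, add_zero]
  have hPm := mono_P hP
  have hPm1 := hP m hmm
  refine ⟨?_, ?_, ?_, ?_, ?_, ?_, ?_⟩
  · rw [sum_congr rfl fun i _ => ht i, sum_add_distrib, hI.sum, sum_ite_eq' (range K) (m + 1),
      if_pos (mem_range.2 hm)]
  · have h5 := hPm 0 m (by omega) hmm.le
    have h6 := hPm (m + 1) K hm.le le_rfl
    exact ⟨by omega, by omega⟩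
  · intro i hi h5 h6
    have him : i = m := by
      by_contra hne
      rcases lt_or_gt_of_ne hne with h | h
      · have := hPm (i + 1) m h hmm.le
        omega
      · have := hPm (m + 1) i h hi.le
        omega
    rw [him, hself]
    refine ⟨rfl, eq, ?_⟩
    show set0 (set0 Y.h 0) (P (m + 1) - P m - 1) = _
    funext k
    unfold set0 shf
    by_cases hk : k.val = 0
    · rw [if_pos hk, if_pos hk]
      have h7 : (A.step w y C).h k = P (m + 1) - 1 := by
        rw [← h4]
        unfold fst
        rw [dif_pos hD]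
        congr 1
        exact Fin.ext hk
      rw [h7]
      ring
    · rw [if_neg hk, if_neg hk, if_neg hk, eh]
      unfold shf
      rw [if_neg hk]
  · intro i hi h5
    have him : m < i := by
      by_contra h
      have := hPm i m (not_lt.1 h) hmm.le
      omega
    by_cases h7 : i = m + 1
    · rw [h7, hself2]
    · rw [hne i him.ne' h7]
      refine hI.md2 i hi ?_
      have := hPm (m + 1 + 1) i (by omega) hi.le
      omega
  · intro i hi h5
    have him : i < m := by
      by_contra h
      have := hPm (m + 1) (i + 1) (by omega) hi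
      omega
    rw [hne i him.ne (by omega)]
    refine hI.md3 i hi ?_
    have := hPm (i + 1) m him hmm.le
    omega
  · intro i hi p hp1 hp2
    by_cases him : i = m + 1
    · subst him
      rw [hself2]
      exact eM p hp1 hp2
    · have h8 : (A.step w y C).M p = C.M p := by
        refine step_M_ne A w y C ?_
        rintro rfl
        rcases lt_or_gt_of_ne him with h | h
        · have := hPm (i + 1) (m + 1) h hm.le
          omega
        · have := hPm (m + 1 + 1) i h hi.le
          omega
      rw [h8]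
      by_cases him' : i = m
      · subst him'
        rw [hself]
        exact hI.ct i hmm p hp1 hp2
      · rw [hne i him' him]
        exact hI.ct i hi p hp1 hp2
  · intro i hik
    rw [hi, hj, hI.link i hik]
    congr 1
    by_cases h : i = m
    · rw [if_pos h, if_pos (by omega)]
    · rw [if_neg h, if_neg (by omega)]

/-- The head goes to the slab on the right. -/
theorem stepB (hD : 0 < D) {K : ℕ} {P : ℕ → ℤ} (hP : ∀ i < K, P i < P (i + 1)) {X : ℕ → LConf D}
    {τ : ℕ} {C : Conf D} (A : OneHead D) (w y : List Bool) (hI : GInv K P X τ C) {m : ℕ}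
    (hm : m + 1 < K) (h1 : P m ≤ fst C.h) (h2 : fst C.h < P (m + 1))
    (h3 : P (m + 1) ≤ fst (A.step w y C).h) :
    GInv K P (Function.update (Function.update X m
      ⟨3, (X m).i, (X m).j + 1, (X m).t + 1,
        ⟨[], fun _ => 0, (A.step w y (X m).C).M⟩⟩) (m + 1)
      ⟨1, (X (m + 1)).i + 1, (X (m + 1)).j, (X (m + 1)).t, ⟨(A.step w y (X m).C).q,
        set0 (set0 (A.step w y (X m).C).h 0) 0, (X (m + 1)).C.M⟩⟩)
      (τ + 1) (A.step w y C) := by
  have hmm : m < K := by omega
  obtain ⟨eq, eh, eM⟩ := local_step A w y hI hmm h1 h2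
  have h4 : fst (A.step w y C).h = P (m + 1) := by
    have := (fst_step hD A w y C).1
    omega
  set Y := A.step w y (X m).C with hY
  have hself : Function.update (Function.update X m
      ⟨3, (X m).i, (X m).j + 1, (X m).t + 1, ⟨[], fun _ => 0, Y.M⟩⟩) (m + 1)
      ⟨1, (X (m + 1)).i + 1, (X (m + 1)).j, (X (m + 1)).t, ⟨Y.q,
        set0 (set0 Y.h 0) 0, (X (m + 1)).C.M⟩⟩ (m + 1) =
      ⟨1, (X (m + 1)).i + 1, (X (m + 1)).j, (X (m + 1)).t, ⟨Y.q,
        set0 (set0 Y.h 0) 0, (X (m + 1)).C.M⟩⟩ := Function.update_self _ _ _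
  have hself2 : Function.update (Function.update X m
      ⟨3, (X m).i, (X m).j + 1, (X m).t + 1, ⟨[], fun _ => 0, Y.M⟩⟩) (m + 1)
      ⟨1, (X (m + 1)).i + 1, (X (m + 1)).j, (X (m + 1)).t, ⟨Y.q,
        set0 (set0 Y.h 0) 0, (X (m + 1)).C.M⟩⟩ m =
      ⟨3, (X m).i, (X m).j + 1, (X m).t + 1, ⟨[], fun _ => 0, Y.M⟩⟩ := by
    rw [Function.update_of_ne (by omega), Function.update_self]
  have hne : ∀ i, i ≠ m → i ≠ m + 1 → Function.update (Function.update X m
      ⟨3, (X m).i, (X m).j + 1, (X m).t + 1, ⟨[], fun _ => 0, Y.M⟩⟩) (m + 1)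
      ⟨1, (X (m + 1)).i + 1, (X (m + 1)).j, (X (m + 1)).t, ⟨Y.q,
        set0 (set0 Y.h 0) 0, (X (m + 1)).C.M⟩⟩ i = X i := by
    intro i h5 h6
    rw [Function.update_of_ne h6, Function.update_of_ne h5]
  set X' := Function.update (Function.update X m
      ⟨3, (X m).i, (X m).j + 1, (X m).t + 1, ⟨[], fun _ => 0, Y.M⟩⟩) (m + 1)
      ⟨1, (X (m + 1)).i + 1, (X (m + 1)).j, (X (m + 1)).t, ⟨Y.q,
        set0 (set0 Y.h 0) 0, (X (m + 1)).C.M⟩⟩
  have hi : ∀ i, (X' i).i = (X i).i + if i = m + 1 then 1 else 0 := by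
    intro i
    by_cases h : i = m + 1
    · rw [h, hself, if_pos rfl]
    · rw [if_neg h]
      by_cases h' : i = m
      · rw [h', hself2, add_zero]
      · rw [hne i h' h, add_zero]
  have hj : ∀ i, (X' i).j = (X i).j + if i = m then 1 else 0 := by
    intro i
    by_cases h : i = m
    · rw [h, hself2, if_pos rfl]
    · rw [if_neg h]
      by_cases h' : i = m + 1
      · rw [h', hself, add_zero]
      · rw [hne i h h', add_zero]
  have ht : ∀ i, (X' i).t = (X i).t + if i = m then 1 else 0 := by
    intro i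
    by_cases h : i = m
    · rw [h, hself2, if_pos rfl]
    · rw [if_neg h]
      by_cases h' : i = m + 1
      · rw [h', hself, add_zero]
      · rw [hne i h h', add_zero]
  have hPm := mono_P hP
  have hPm1 := hP (m + 1) hm
  refine ⟨?_, ?_, ?_, ?_, ?_, ?_, ?_⟩
  · rw [sum_congr rfl fun i _ => ht i, sum_add_distrib, hI.sum, sum_ite_eq' (range K) m,
      if_pos (mem_range.2 hmm)]
  · have h5 := hPm 0 (m + 1) (by omega) hm.le
    have h6 := hPm (m + 1 + 1) K hm le_rfl
    exact ⟨by omega, by omega⟩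
  · intro i hi h5 h6
    have him : i = m + 1 := by
      by_contra hne
      rcases lt_or_gt_of_ne hne with h | h
      · have := hPm (i + 1) (m + 1) h hm.le
        omega
      · have := hPm (m + 1 + 1) i h hi.le
        omega
    rw [him, hself]
    refine ⟨rfl, eq, ?_⟩
    show set0 (set0 Y.h 0) 0 = _
    funext k
    unfold set0 shf
    by_cases hk : k.val = 0
    · rw [if_pos hk, if_pos hk]
      have h7 : (A.step w y C).h k = P (m + 1) := by
        rw [← h4]
        unfold fst
        rw [dif_pos hD]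
        congr 1
        exact Fin.ext hk
      rw [h7]
      ring
    · rw [if_neg hk, if_neg hk, if_neg hk, eh]
      unfold shf
      rw [if_neg hk]
  · intro i hi h5
    have him : m + 1 < i := by
      by_contra h
      have := hPm i (m + 1) (not_lt.1 h) hm.le
      omega
    rw [hne i (by omega) him.ne']
    refine hI.md2 i hi ?_
    have := hPm (m + 1) i (by omega) hi.le
    omega
  · intro i hi h5
    have him : i < m + 1 := by
      by_contra h
      have := hPm (m + 1 + 1) (i + 1) (by omega) hi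
      omega
    by_cases h7 : i = m
    · rw [h7, hself2]
    · rw [hne i h7 him.ne]
      refine hI.md3 i hi ?_
      have := hPm (i + 1) m (by omega) hmm.le
      omega
  · intro i hi p hp1 hp2
    by_cases him : i = m
    · subst him
      rw [hself2]
      exact eM p hp1 hp2
    · have h8 : (A.step w y C).M p = C.M p := by
        refine step_M_ne A w y C ?_
        rintro rfl
        rcases lt_or_gt_of_ne him with h | h
        · have := hPm (i + 1) m h hmm.le
          omega
        · have := hPm (m + 1) i h hi.le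
          omega
      rw [h8]
      by_cases him' : i = m + 1
      · subst him'
        rw [hself]
        exact hI.ct (m + 1) hi p hp1 hp2
      · rw [hne i him him']
        exact hI.ct i hi p hp1 hp2
  · intro i hik
    rw [hi, hj, hI.link i hik]
    congr 1
    by_cases h : i = m
    · rw [if_pos h, if_pos (by omega)]
    · rw [if_neg h, if_neg (by omega)]

/-! ### The theorem -/

/-- The data of the slab number `i`. -/
def sg (P : ℕ → ℤ) (L : ℕ → ℕ → Option (List Bool × (Fin D → ℤ))) (n : ℕ → ℕ) (i : ℕ) :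
    Slb D := ⟨P (i + 1) - P i, n i, L i, L (i + 1)⟩

/-- The configuration of the slab number `i` after `j` steps. -/
noncomputable def YY (A : OneHead D) (w y : List Bool) (C₀ : Conf D) (P : ℕ → ℤ)
    (L : ℕ → ℕ → Option (List Bool × (Fin D → ℤ))) (n : ℕ → ℕ) (i j : ℕ) : LConf D :=
  lconf A w y (sg P L n i) (lcf (P i) (P (i + 1)) 0 0 0 C₀) j

theorem YY_succ (A : OneHead D) (w y : List Bool) (C₀ : Conf D) (P : ℕ → ℤ)
    (L : ℕ → ℕ → Option (List Bool × (Fin D → ℤ))) (n : ℕ → ℕ) (i j : ℕ) :
    YY A w y C₀ P L n i (j + 1) = lstep A w y (sg P L n i) (YY A w y C₀ P L n i j) := rfl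

section G

variable {A : OneHead D} {w y : List Bool} {C₀ : Conf D} {K : ℕ} {P : ℕ → ℤ}
  {L : ℕ → ℕ → Option (List Bool × (Fin D → ℤ))} {n e : ℕ → ℕ}

theorem start (hD : 0 < D) (hP : ∀ i < K, P i < P (i + 1))
    (h0 : P 0 ≤ fst C₀.h ∧ fst C₀.h < P K) :
    GInv K P (fun i => YY A w y C₀ P L n i 0) 0 C₀ := by
  have hlM : ∀ i, ∀ p, P i ≤ fst p → fst p < P (i + 1) →
      lM (P i) (P (i + 1)) C₀.M (shf (-P i) p) = C₀.M p := by
    intro i p h1 h2
    unfold lM
    rw [fst_shf hD, if_pos ⟨by omega, by omega⟩, shf_shf']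
  have hin : ∀ i, (P i ≤ fst C₀.h ∧ fst C₀.h < P (i + 1)) → YY A w y C₀ P L n i 0 =
      ⟨1, 0, 0, 0, ⟨C₀.q, shf (-P i) C₀.h, lM (P i) (P (i + 1)) C₀.M⟩⟩ := by
    intro i h
    show lcf _ _ _ _ _ _ = _
    unfold lcf
    rw [if_pos h]
  have hout : ∀ i, ¬(P i ≤ fst C₀.h ∧ fst C₀.h < P (i + 1)) → YY A w y C₀ P L n i 0 =
      ⟨if fst C₀.h < P i then 2 else 3, 0, 0, 0,
        ⟨[], fun _ => 0, lM (P i) (P (i + 1)) C₀.M⟩⟩ := by
    intro i h
    show lcf _ _ _ _ _ _ = _
    unfold lcf
    rw [if_neg h]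
  refine ⟨?_, h0, ?_, ?_, ?_, ?_, ?_⟩
  · refine sum_eq_zero fun i _ => ?_
    by_cases h : P i ≤ fst C₀.h ∧ fst C₀.h < P (i + 1)
    · show (YY A w y C₀ P L n i 0).t = 0
      rw [hin i h]
    · show (YY A w y C₀ P L n i 0).t = 0
      rw [hout i h]
  · intro i _ h1 h2
    show (YY A w y C₀ P L n i 0).md = 1 ∧ (YY A w y C₀ P L n i 0).C.q = _ ∧
      (YY A w y C₀ P L n i 0).C.h = _
    rw [hin i ⟨h1, h2⟩]
    exact ⟨rfl, rfl, rfl⟩
  · intro i _ h1
    show (YY A w y C₀ P L n i 0).md = 2
    rw [hout i (by omega)]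
    show (if fst C₀.h < P i then 2 else 3) = 2
    rw [if_pos h1]
  · intro i hi h1
    show (YY A w y C₀ P L n i 0).md = 3
    have := hP i hi
    rw [hout i (by omega)]
    show (if fst C₀.h < P i then 2 else 3) = 3
    rw [if_neg (by omega)]
  · intro i _ p h1 h2
    show (YY A w y C₀ P L n i 0).C.M (shf (-P i) p) = _
    rw [← hlM i p h1 h2]
    by_cases h : P i ≤ fst C₀.h ∧ fst C₀.h < P (i + 1)
    · rw [hin i h]
    · rw [hout i h]
  · intro i _
    show (YY A w y C₀ P L n i 0).j = (YY A w y C₀ P L n (i + 1) 0).i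
    have hj : (YY A w y C₀ P L n i 0).j = 0 := by
      by_cases h : P i ≤ fst C₀.h ∧ fst C₀.h < P (i + 1)
      · rw [hin i h]
      · rw [hout i h]
    have hi : (YY A w y C₀ P L n (i + 1) 0).i = 0 := by
      by_cases h : P (i + 1) ≤ fst C₀.h ∧ fst C₀.h < P (i + 1 + 1)
      · rw [hin (i + 1) h]
      · rw [hout (i + 1) h]
    rw [hj, hi]

/-- If the process of the slab with the head is finished then all processes are finished. -/
theorem all_fin (hP : ∀ i < K, P i < P (i + 1))
    (hF : ∀ i < K, LFin (sg P L n i) (YY A w y C₀ P L n i (e i))) {f : ℕ → ℕ} {τ : ℕ}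
    {C : Conf D} (hf : ∀ i < K, f i ≤ e i)
    (hI : GInv K P (fun i => YY A w y C₀ P L n i (f i)) τ C) {m : ℕ} (hm : m < K)
    (h1 : P m ≤ fst C.h) (h2 : fst C.h < P (m + 1))
    (h : LFin (sg P L n m) (YY A w y C₀ P L n m (f m))) : ∀ i < K, f i = e i := by
  have hPm := mono_P hP
  have hmd : ∀ i < K, ∀ j ≤ e i, (YY A w y C₀ P L n i j).md ≠ 0 := fun i hi =>
    lconf_md A w y _ _ (hF i hi).1
  have hnf : ∀ i < K, ∀ j < e i, ¬LFin (sg P L n i) (YY A w y C₀ P L n i j) :=
    fun i hi j hj => lconf_fin A w y _ _ (hF i hi).1 hj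
  have em : f m = e m := by
    by_contra hne
    exact hnf m hm (f m) (lt_of_le_of_ne (hf m hm) hne) h
  have hr : ∀ a, m + a < K → f (m + a) = e (m + a) := by
    intro a
    induction a with
    | zero => exact fun _ => em
    | succ a ih =>
      intro ha
      have e1 := ih (by omega)
      have hF1 := hF (m + a) (by omega)
      rw [← e1] at hF1
      by_contra hne
      have hlt : f (m + (a + 1)) < e (m + (a + 1)) := lt_of_le_of_ne (hf _ ha) hne
      refine hmd _ ha (f (m + (a + 1)) + 1) hlt ?_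
      rw [YY_succ]
      refine lstep_L0 A w y _ _ ?_ ?_
      · refine hI.md2 _ ha ?_
        have := hPm (m + 1) (m + (a + 1)) (by omega) ha.le
        omega
      · have e2 := hI.link (m + a) ha
        show L (m + (a + 1)) (YY A w y C₀ P L n (m + (a + 1)) (f (m + (a + 1)))).i = none
        have e3 : L (m + a + 1) (YY A w y C₀ P L n (m + a) (f (m + a))).j = none := hF1.2.2.2
        have e2' : (YY A w y C₀ P L n (m + a) (f (m + a))).j =
          (YY A w y C₀ P L n (m + a + 1) (f (m + a + 1))).i := e2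
        rw [e2'] at e3
        exact e3
  have hl : ∀ a, a ≤ m → f (m - a) = e (m - a) := by
    intro a
    induction a with
    | zero => exact fun _ => em
    | succ a ih =>
      intro ha
      have e1 := ih (by omega)
      have hk : m - a = m - (a + 1) + 1 := by omega
      have hF1 := hF (m - a) (by omega)
      rw [← e1, hk] at hF1
      have hi : m - (a + 1) < K := by omega
      by_contra hne
      have hlt : f (m - (a + 1)) < e (m - (a + 1)) := lt_of_le_of_ne (hf _ hi) hne
      refine hmd _ hi (f (m - (a + 1)) + 1) hlt ?_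
      rw [YY_succ]
      refine lstep_R0 A w y _ _ ?_ ?_
      · refine hI.md3 _ hi ?_
        have := hPm (m - (a + 1) + 1) m (by omega) hm.le
        omega
      · have e2 := hI.link (m - (a + 1)) (by omega)
        have e2' : (YY A w y C₀ P L n (m - (a + 1)) (f (m - (a + 1)))).j =
          (YY A w y C₀ P L n (m - (a + 1) + 1) (f (m - (a + 1) + 1))).i := e2
        show L (m - (a + 1) + 1) (YY A w y C₀ P L n (m - (a + 1)) (f (m - (a + 1)))).j = none
        rw [e2']
        exact hF1.2.2.1
  intro i hi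
  rcases Nat.lt_or_ge i m with h3 | h3
  · have := hl (m - i) (by omega)
    have h4 : m - (m - i) = i := by omega
    rwa [h4] at this
  · have := hr (i - m) (by omega)
    have h4 : m + (i - m) = i := by omega
    rwa [h4] at this

/-- One step. -/
theorem next_inv (hD : 0 < D) (hP : ∀ i < K, P i < P (i + 1))
    (hL0 : ∀ m, L 0 m = none) (hLK : ∀ m, L K m = none)
    (hF : ∀ i < K, LFin (sg P L n i) (YY A w y C₀ P L n i (e i))) {τ : ℕ}
    {C : Conf D} (hτ : τ < ∑ i ∈ range K, n i)
    (hI : ∃ f : ℕ → ℕ, (∀ i < K, f i ≤ e i) ∧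
      GInv K P (fun i => YY A w y C₀ P L n i (f i)) τ C) :
    ∃ f : ℕ → ℕ, (∀ i < K, f i ≤ e i) ∧
      GInv K P (fun i => YY A w y C₀ P L n i (f i)) (τ + 1) (A.step w y C) := by
  obtain ⟨f, hf, hI⟩ := hI
  have hmd : ∀ i < K, ∀ j ≤ e i, (YY A w y C₀ P L n i j).md ≠ 0 := fun i hi =>
    lconf_md A w y _ _ (hF i hi).1
  obtain ⟨m, hm, h1, h2⟩ := exists_slab hP hI.inn.1 hI.inn.2
  have hnf : ¬LFin (sg P L n m) (YY A w y C₀ P L n m (f m)) := by
    intro h
    have h3 := all_fin hP hF hf hI hm h1 h2 h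
    have h4 : ∑ i ∈ range K, (YY A w y C₀ P L n i (f i)).t = ∑ i ∈ range K, n i := by
      refine sum_congr rfl fun i hi => ?_
      rw [h3 i (mem_range.1 hi)]
      exact (hF i (mem_range.1 hi)).2.1
    have h5 : ∑ i ∈ range K, (YY A w y C₀ P L n i (f i)).t = τ := hI.sum
    omega
  have hlt : f m < e m := by
    refine lt_of_le_of_ne (hf m hm) fun h => hnf ?_
    rw [h]
    exact hF m hm
  obtain ⟨em, eq, eh⟩ := hI.md1 m hm h1 h2
  have eC := local_step A w y hI hm h1 h2
  have h0 := hmd m hm (f m + 1) hlt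
  rw [YY_succ] at h0
  obtain ⟨_, hcase⟩ := lstep_in A w y (sg P L n m) (YY A w y C₀ P L n m (f m)) em h0
  have hfst : fst (A.step w y (YY A w y C₀ P L n m (f m)).C).h =
      fst (A.step w y C).h - P m := by
    have : (A.step w y (YY A w y C₀ P L n m (f m)).C).h = _ := eC.2.1
    rw [this, fst_shf hD]
    ring
  rcases hcase with ⟨c1, c2, c3⟩ | ⟨c1, c2, c3⟩ | ⟨c1, c2, c3⟩
  · cases m with
    | zero =>
      have : L 0 _ = some _ := c2
      rw [hL0] at this
      exact absurd this (by simp)
    | succ m =>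
      have hmm : m < K := by omega
      rw [hfst] at c1
      have g3 : (YY A w y C₀ P L n m (f m)).md = 3 := by
        refine hI.md3 m hmm h1
      have elink : (YY A w y C₀ P L n m (f m)).j = (YY A w y C₀ P L n (m + 1) (f (m + 1))).i :=
        hI.link m hm
      have gR : (sg P L n m).R (YY A w y C₀ P L n m (f m)).j =
          some ((A.step w y (YY A w y C₀ P L n (m + 1) (f (m + 1))).C).q,
            set0 (A.step w y (YY A w y C₀ P L n (m + 1) (f (m + 1))).C).h 0) := by
        rw [elink]
        exact c2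
      have hlt' : f m < e m := by
        refine lt_of_le_of_ne (hf m hmm) fun h => ?_
        have h6 := (hF m hmm).2.2.2
        rw [← h, gR] at h6
        exact absurd h6 (by simp)
      have hs := lstep_R A w y (sg P L n m) (YY A w y C₀ P L n m (f m)) g3 gR
      refine ⟨Function.update (Function.update f (m + 1) (f (m + 1) + 1)) m (f m + 1), ?_, ?_⟩
      · intro i hi
        by_cases h7 : i = m
        · rw [h7, Function.update_self]
          exact hlt'
        · rw [Function.update_of_ne h7]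
          by_cases h8 : i = m + 1
          · rw [h8, Function.update_self]
            exact hlt
          · rw [Function.update_of_ne h8]
            exact hf i hi
      · have key := stepA hD hP A w y hI hm h1 h2 (by omega)
        have hfun : (fun i => YY A w y C₀ P L n i
            (Function.update (Function.update f (m + 1) (f (m + 1) + 1)) m (f m + 1) i)) =
            Function.update (Function.update (fun i => YY A w y C₀ P L n i (f i)) (m + 1)
              (YY A w y C₀ P L n (m + 1) (f (m + 1) + 1))) m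
              (YY A w y C₀ P L n m (f m + 1)) := by
          funext i
          by_cases h7 : i = m
          · rw [h7, Function.update_self, Function.update_self]
          · rw [Function.update_of_ne h7, Function.update_of_ne h7]
            by_cases h8 : i = m + 1
            · rw [h8, Function.update_self, Function.update_self]
            · rw [Function.update_of_ne h8, Function.update_of_ne h8]
        rw [hfun, YY_succ, YY_succ, c3, hs]
        exact key
  · rw [hfst] at c1
    have c1' : P (m + 1) - P m ≤ fst (A.step w y C).h - P m := c1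
    by_cases hmK : m + 1 < K
    · have g2 : (YY A w y C₀ P L n (m + 1) (f (m + 1))).md = 2 := hI.md2 (m + 1) hmK h2
      have elink : (YY A w y C₀ P L n m (f m)).j = (YY A w y C₀ P L n (m + 1) (f (m + 1))).i :=
        hI.link m hmK
      have gL : (sg P L n (m + 1)).L (YY A w y C₀ P L n (m + 1) (f (m + 1))).i =
          some ((A.step w y (YY A w y C₀ P L n m (f m)).C).q,
            set0 (A.step w y (YY A w y C₀ P L n m (f m)).C).h 0) := by
        rw [← elink]
        exact c2
      have hlt' : f (m + 1) < e (m + 1) := by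
        refine lt_of_le_of_ne (hf (m + 1) hmK) fun h => ?_
        have h6 := (hF (m + 1) hmK).2.2.1
        rw [← h, gL] at h6
        exact absurd h6 (by simp)
      have hs := lstep_L A w y (sg P L n (m + 1)) (YY A w y C₀ P L n (m + 1) (f (m + 1))) g2 gL
      refine ⟨Function.update (Function.update f m (f m + 1)) (m + 1) (f (m + 1) + 1), ?_, ?_⟩
      · intro i hi
        by_cases h7 : i = m + 1
        · rw [h7, Function.update_self]
          exact hlt'
        · rw [Function.update_of_ne h7]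
          by_cases h8 : i = m
          · rw [h8, Function.update_self]
            exact hlt
          · rw [Function.update_of_ne h8]
            exact hf i hi
      · have key := stepB hD hP A w y hI hmK h1 h2 (by omega)
        have hfun : (fun i => YY A w y C₀ P L n i
            (Function.update (Function.update f m (f m + 1)) (m + 1) (f (m + 1) + 1) i)) =
            Function.update (Function.update (fun i => YY A w y C₀ P L n i (f i)) m
              (YY A w y C₀ P L n m (f m + 1))) (m + 1)
              (YY A w y C₀ P L n (m + 1) (f (m + 1) + 1)) := by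
          funext i
          by_cases h7 : i = m + 1
          · rw [h7, Function.update_self, Function.update_self]
          · rw [Function.update_of_ne h7, Function.update_of_ne h7]
            by_cases h8 : i = m
            · rw [h8, Function.update_self, Function.update_self]
            · rw [Function.update_of_ne h8, Function.update_of_ne h8]
        rw [hfun, YY_succ, YY_succ, c3, hs]
        exact key
    · have hmK' : m + 1 = K := by omega
      have : L (m + 1) _ = some _ := c2
      rw [hmK', hLK] at this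
      exact absurd this (by simp)
  · rw [hfst] at c1 c2
    have c2' : fst (A.step w y C).h - P m < P (m + 1) - P m := c2
    refine ⟨Function.update f m (f m + 1), ?_, ?_⟩
    · intro i hi
      by_cases h7 : i = m
      · rw [h7, Function.update_self]
        exact hlt
      · rw [Function.update_of_ne h7]
        exact hf i hi
    · have key := stepC hP A w y hI hm h1 h2 (by omega) (by omega)
      have hfun : (fun i => YY A w y C₀ P L n i (Function.update f m (f m + 1) i)) =
          Function.update (fun i => YY A w y C₀ P L n i (f i)) m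
            (YY A w y C₀ P L n m (f m + 1)) := by
        funext i
        by_cases h7 : i = m
        · rw [h7, Function.update_self, Function.update_self]
        · rw [Function.update_of_ne h7, Function.update_of_ne h7]
      rw [hfun, YY_succ, c3]
      exact key

end G

theorem glue : GLUE_stmt := by
  intro D hD A w y t₀ K P L n e hP hIn hL0 hLK hF
  have hF' : ∀ i < K, LFin (sg P L n i) (YY A w y (A.conf w y t₀) P L n i (e i)) := hF
  have hall : ∀ τ ≤ ∑ i ∈ range K, n i, ∃ f : ℕ → ℕ, (∀ i < K, f i ≤ e i) ∧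
      GInv K P (fun i => YY A w y (A.conf w y t₀) P L n i (f i)) τ (A.conf w y (t₀ + τ)) := by
    intro τ
    induction τ with
    | zero =>
      intro _
      exact ⟨fun _ => 0, fun _ _ => Nat.zero_le _, start hD hP hIn⟩
    | succ τ ih =>
      intro hτ
      exact next_inv hD hP hL0 hLK hF' (by omega) (ih (by omega))
  obtain ⟨f, hf, hI⟩ := hall _ le_rfl
  have hmd : ∀ i < K, ∀ j ≤ e i, (YY A w y (A.conf w y t₀) P L n i j).md ≠ 0 := fun i hi =>
    lconf_md A w y _ _ (hF' i hi).1
  have hle : ∀ i ∈ range K, (YY A w y (A.conf w y t₀) P L n i (f i)).t ≤ n i := by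
    intro i hi
    have h1 := lconf_t A w y (sg P L n i) (lcf (P i) (P (i + 1)) 0 0 0 (A.conf w y t₀))
      (hf i (mem_range.1 hi))
    have h2 : (YY A w y (A.conf w y t₀) P L n i (e i)).t = n i :=
      (hF' i (mem_range.1 hi)).2.1
    rw [← h2]
    exact h1
  have heq := (sum_eq_sum_iff_of_le hle).1 hI.sum
  obtain ⟨m, hm, h1, h2⟩ := exists_slab hP hI.inn.1 hI.inn.2
  obtain ⟨em, eq, eh⟩ := hI.md1 m hm h1 h2
  have hfm : f m = e m := by
    by_contra hne
    have hlt : f m < e m := lt_of_le_of_ne (hf m hm) hne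
    have h0 := hmd m hm (f m + 1) hlt
    rw [YY_succ] at h0
    exact (lstep_in A w y (sg P L n m) (YY A w y (A.conf w y t₀) P L n m (f m)) em h0).1
      (heq m (mem_range.2 hm))
  have hfin : LFin (sg P L n m) (YY A w y (A.conf w y t₀) P L n m (f m)) := by
    rw [hfm]
    exact hF' m hm
  have hfe := all_fin hP hF' hf hI hm h1 h2 hfin
  constructor
  · intro u hu1 hu2
    obtain ⟨f', hf', hI'⟩ := hall (u - t₀) (by omega)
    have hu : t₀ + (u - t₀) = u := by omega
    rw [hu] at hI'
    obtain ⟨m', hm', h1', h2'⟩ := exists_slab hP hI'.inn.1 hI'.inn.2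
    obtain ⟨em', _, eh'⟩ := hI'.md1 m' hm' h1' h2'
    exact ⟨m', hm', ⟨h1', h2'⟩, f' m', hf' m' hm', em', eh'⟩
  intro i hi
  show Loc (P i) (P (i + 1)) (YY A w y (A.conf w y t₀) P L n i (e i)) _
  rw [← hfe i hi]
  have hPi := hP i hi
  refine ⟨?_, ?_, ?_, ?_⟩
  · rw [hfe i hi]
    exact (hF' i hi).1
  · constructor
    · intro h3
      by_contra h4
      rcases lt_or_ge (fst (A.conf w y (t₀ + ∑ i ∈ range K, n i)).h) (P i) with h5 | h5
      · have := hI.md2 i hi h5
        have h3' : (YY A w y (A.conf w y t₀) P L n i (f i)).md = 2 := this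
        omega
      · have := hI.md3 i hi (by omega)
        have h3' : (YY A w y (A.conf w y t₀) P L n i (f i)).md = 3 := this
        omega
    · rintro ⟨h3, h4⟩
      exact (hI.md1 i hi h3 h4).1
  · intro h3
    by_cases h4 : P i ≤ fst (A.conf w y (t₀ + ∑ i ∈ range K, n i)).h ∧
        fst (A.conf w y (t₀ + ∑ i ∈ range K, n i)).h < P (i + 1)
    · exact (hI.md1 i hi h4.1 h4.2).2
    · exfalso
      rcases lt_or_ge (fst (A.conf w y (t₀ + ∑ i ∈ range K, n i)).h) (P i) with h5 | h5
      · have h3' : (YY A w y (A.conf w y t₀) P L n i (f i)).md = 2 := hI.md2 i hi h5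
        omega
      · have h3' : (YY A w y (A.conf w y t₀) P L n i (f i)).md = 3 := hI.md3 i hi (by omega)
        omega
  · exact hI.ct i hi

end Pool.Agent.Helper9.RECT
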